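import Pool.Agent.H.MP_29b22c_an.A

set_option autoImplicit false
open Set Filter Topology Metric Complex InnerProductSpace
open scoped RealInnerProductSpace

namespace Pool.Agent.Results.MP_29b22c_an.Yes

def CH {n : ℕ} (Ω : Set (EuclideanSpace ℝ (Fin n))) (f : ℂ → EuclideanSpace ℝ (Fin n)) : Prop :=
  HarmonicOnNhd f (ball 0 1) ∧ MapsTo f (ball 0 1) Ω ∧ ∀ z ∈ ball (0 : ℂ) 1,
    ‖fderiv ℝ f z 1‖ = ‖fderiv ℝ f z I‖ ∧ ⟪fderiv ℝ f z 1, fderiv ℝ f z I⟫ = 0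

open Classical in
noncomputable def g {n : ℕ} (Ω : Set (EuclideanSpace ℝ (Fin n)))
    (x u : EuclideanSpace ℝ (Fin n)) : ℝ :=
  if u = 0 then 0 else
    sInf {t | ∃ r : ℝ, 0 < r ∧ t = 1 / r ∧ ∃ f, CH Ω f ∧ f 0 = x ∧ fderiv ℝ f 0 1 = r • u}

open Pool.Agent.H.MP_29b22c_an in
theorem result (n : ℕ) (hn : 3 ≤ n) : ∃ Ω : Set (EuclideanSpace ℝ (Fin n)),
    IsOpen Ω ∧ IsConnected Ω ∧ Bornology.IsBounded Ω ∧
    (∀ x ∈ Ω, ∀ u ≠ 0, ∃ r : ℝ, 0 < r ∧ ∃ f, CH Ω f ∧ f 0 = x ∧ fderiv ℝ f 0 1 = r • u) ∧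
    ¬ ContinuousOn (fun p => g Ω p.1 p.2) (Ω ×ˢ univ) := by
  let E := EuclideanSpace ℝ (Fin n)
  let e : Fin 3 → E := fun i => EuclideanSpace.single (Fin.castLE hn i) 1
  have ee : ∀ i j, ⟪e i, e j⟫ = if i = j then 1 else 0 := fun i j => by
    refine (EuclideanSpace.inner_single_left _ _ _).trans ?_
    simp [e, E, Fin.castLE_inj]
  have ne : ∀ i, ‖e i‖ = 1 := fun i => by simp [e, E]
  let Ω : Set E := ball 0 0.3 ∪ (ball 0 1 ∩ {x | 0 < ⟪e 2, x⟫})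
  have oΩ : IsOpen Ω := isOpen_ball.union (isOpen_ball.inter (isOpen_lt continuous_const (by fun_prop)))
  have sΩ : Ω ⊆ ball 0 1 := union_subset (ball_subset_ball (by norm_num)) inter_subset_left
  have flat : ∀ x a b : E, ‖a‖ = ‖b‖ → ⟪a, b⟫ = 0 → (∀ s t : ℝ, s ^ 2 + t ^ 2 < 1 →
      x + (s • a + t • b) ∈ Ω) → ∃ f, CH Ω f ∧ f 0 = x ∧ fderiv ℝ f 0 1 = a := by
    intro x a b h1 h2 h3
    let L : ℂ →L[ℝ] E := reCLM.smulRight a + imCLM.smulRight b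
    have d : ∀ z, fderiv ℝ (fun w => x + L w) z = L := fun z => by
      rw [fderiv_const_add, L.fderiv]
    refine ⟨fun w => x + L w, ⟨fun z _ => (harmonicAt_const x).add (harm_lin L z), fun z hz => ?_,
      fun z _ => ?_⟩, by simp, ?_⟩
    · refine h3 z.re z.im ?_
      have : ‖z‖ < 1 := by simpa using hz
      have h := Complex.sq_norm z
      rw [normSq_apply] at h
      nlinarith [norm_nonneg z]
    · rw [d]; simp [L, h1, h2]
    · rw [d]; simp [L]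
  have nrm : ∀ a b : E, ‖a‖ = ‖b‖ → ⟪a, b⟫ = 0 → ∀ s t : ℝ,
      ‖s • a + t • b‖ ^ 2 = (s ^ 2 + t ^ 2) * ‖a‖ ^ 2 := fun a b h1 h2 s t => by
    rw [norm_add_sq_real, real_inner_smul_left, real_inner_smul_right, h2, norm_smul, norm_smul, h1]
    simp only [Real.norm_eq_abs, mul_pow, sq_abs]
    ring
  have nem : ∀ x ∈ Ω, ∀ u ≠ 0, ∃ r : ℝ, 0 < r ∧ ∃ f, CH Ω f ∧ f 0 = x ∧
      fderiv ℝ f 0 1 = r • u := fun x hx u hu => by
    obtain ⟨δ, d0, hδ⟩ := Metric.isOpen_iff.1 oΩ x hx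
    have u0 : 0 < ‖u‖ := norm_pos_iff.2 hu
    obtain ⟨v, hv, v0⟩ : ∃ v ∈ (ℝ ∙ u)ᗮ, v ≠ 0 := by
      refine Submodule.exists_mem_ne_zero_of_ne_bot fun h => ?_
      have := Submodule.finrank_add_finrank_orthogonal (ℝ ∙ u)
      rw [h, finrank_span_singleton hu, finrank_bot, finrank_euclideanSpace_fin] at this
      omega
    have v1 : 0 < ‖v‖ := norm_pos_iff.2 v0
    have n1 : ‖(δ / ‖u‖) • u‖ = δ := by
      rw [norm_smul, Real.norm_eq_abs, abs_of_pos (by positivity)]; field_simp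
    have n2 : ‖(δ / ‖u‖) • u‖ = ‖(δ / ‖v‖) • v‖ := by
      rw [n1, norm_smul, Real.norm_eq_abs, abs_of_pos (by positivity)]; field_simp
    have n3 : ⟪(δ / ‖u‖) • u, (δ / ‖v‖) • v⟫ = 0 := by
      rw [real_inner_smul_left, real_inner_smul_right,
        Submodule.mem_orthogonal_singleton_iff_inner_right.1 hv]; simp
    refine ⟨δ / ‖u‖, by positivity, flat x _ _ n2 n3 fun s t h => hδ ?_⟩
    rw [mem_ball, dist_self_add_left]
    refine lt_of_pow_lt_pow_left₀ 2 d0.le ?_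
    rw [nrm _ _ n2 n3, n1]
    nlinarith [pow_pos d0 2]
  have e0 : e 0 ≠ 0 := norm_pos_iff.1 (by rw [ne]; exact one_pos)
  have z0 : (0 : E) ∈ Ω := Or.inl (mem_ball_self (by norm_num))
  have te : ∀ t : ℝ, 0 < t → t < 1 → t • e 2 ∈ ball 0 1 ∩ {x : E | 0 < ⟪e 2, x⟫} := fun t h0 h1 =>
    ⟨by simpa [norm_smul, ne, abs_of_pos h0], by simpa [real_inner_smul_right, ee, ne]⟩
  refine ⟨Ω, oΩ, IsConnected.union ⟨(0.1 : ℝ) • e 2, ?_, te _ (by norm_num) (by norm_num)⟩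
    (isConnected_ball (by norm_num)) (Convex.isConnected ((convex_ball _ _).inter
      (convex_halfSpace_gt (innerSL ℝ (e 2)).isLinear 0)) ⟨_, te 0.1 (by norm_num) (by norm_num)⟩),
    isBounded_ball.subset sΩ, nem, fun hc => ?_⟩
  · simp [norm_smul, ne]; norm_num
  have lo : 1 / 0.999 ≤ g Ω 0 (e 0) := by
    rw [g, if_neg e0]
    obtain ⟨r, h⟩ := nem 0 z0 _ e0
    refine le_csInf ⟨_, r, h.1, rfl, h.2⟩ ?_
    rintro _ ⟨r, r0, rfl, f, ⟨h1, h2, h3⟩, f0, fd⟩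
    refine one_div_le_one_div_of_le r0 (not_lt.1 fun hr => ?_)
    have n1 : ‖fderiv ℝ f 0 1‖ = r := by rw [fd, norm_smul, ne]; simp [r0.le]
    obtain ⟨k1, k2⟩ := h3 0 (mem_ball_self one_pos)
    obtain ⟨ρ, ρ0, ρ1, hρ⟩ := rigid h1 (fun z hz => by simpa using sΩ (h2 hz)) hr n1 (k1 ▸ n1) k2
    have := nopos (h1.comp_CLM (innerSL ℝ (e 2))) ρ0 ρ1 fun z hz => by
      rcases h2 (sphere_subset_ball ρ1 hz) with h | h
      · exact absurd (hρ z hz) (by simpa using h)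
      · exact h.2
    simp [f0] at this
  have hi : ∀ t : ℝ, 0 < t → t < 0.01 → g Ω (t • e 2) (e 0) ≤ 1 / 0.9995 := fun t h0 h1 => by
    rw [g, if_neg e0]
    refine csInf_le ⟨0, ?_⟩ ⟨0.9995, by norm_num, rfl, ?_⟩
    · rintro _ ⟨r, r0, rfl, -⟩; positivity
    have n2 : ‖(0.9995 : ℝ) • e 0‖ = ‖(0.9995 : ℝ) • e 1‖ := by simp [norm_smul, ne]
    have n3 : ⟪(0.9995 : ℝ) • e 0, (0.9995 : ℝ) • e 1⟫ = 0 := by
      simp [real_inner_smul_left, real_inner_smul_right, ee]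
    refine flat _ _ _ n2 n3 fun a b h => Or.inr ⟨?_, ?_⟩
    · rw [mem_ball_zero_iff]
      refine lt_of_pow_lt_pow_left₀ 2 zero_le_one ?_
      rw [norm_add_sq_real, nrm _ _ n2 n3]
      simp [real_inner_smul_left, real_inner_smul_right, inner_add_right, ee, norm_smul, ne,
        abs_of_pos h0]
      nlinarith
    · simpa [real_inner_smul_right, inner_add_right, ee, ne]
  have t1 : Tendsto (fun t : ℝ => (t • e 2, e 0)) (𝓝[>] 0) (𝓝[Ω ×ˢ univ] (0, e 0)) :=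
    tendsto_nhdsWithin_iff.2 ⟨(Continuous.tendsto' (by fun_prop) 0 _ (by simp)).mono_left
      nhdsWithin_le_nhds, by
        filter_upwards [Ioo_mem_nhdsGT one_pos] with t ht using ⟨Or.inr (te t ht.1 ht.2), trivial⟩⟩
  have := le_of_tendsto ((hc (0, e 0) ⟨z0, trivial⟩).tendsto.comp t1) (b := 1 / 0.9995) (by
    filter_upwards [Ioo_mem_nhdsGT (show (0 : ℝ) < 0.01 by norm_num)] with t ht
      using hi t ht.1 ht.2)
  norm_num at lo this
  linarith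

end Pool.Agent.Results.MP_29b22c_an.Yes
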